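import Pool.Agent.Run7.h687.Alph2
import Pool.Agent.Run7.h687.Group

set_option autoImplicit false

namespace Pool.Agent.Results.MP_5b81c9_an.MixingNearlyFree

open Run7.h687.Lamp

/-- For every bound `M` the lamplighter group `G` (generated by the two permutations below) has a
nonempty topologically mixing subshift of finite type such that no nontrivial element of `G` whose
height (image in `ℤ`) is at most `M` in absolute value fixes a point of the subshift. In particular
no nontrivial element of finite order fixes a point. -/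
theorem result :
    ∀ M : ℕ, ∀ G : Subgroup (Equiv.Perm (ℤ × (ℤ →₀ ZMod 2))),
    G = Subgroup.closure
      {Equiv.prodCongr (Equiv.addRight (1 : ℤ)) (Equiv.refl (ℤ →₀ ZMod 2)),
       Equiv.prodShear (Equiv.refl ℤ)
         (fun n : ℤ => Equiv.addRight (Finsupp.single n (1 : ZMod 2)))} →
    ∃ k : ℕ, ∃ F : Finset G, ∃ P : Set (F → Fin k),
      (∃ x : G → Fin k, ∀ g : G, (fun h : F => x (g * (h : G))) ∈ P) ∧
      (∀ x : G → Fin k, (∀ g : G, (fun h : F => x (g * (h : G))) ∈ P) →
        ∀ g : G, (∀ h : G, x (g⁻¹ * h) = x h) →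
          g = 1 ∨ (M : ℤ) < |((g : Equiv.Perm (ℤ × (ℤ →₀ ZMod 2))) (0, 0)).1|) ∧
      (∀ x y : G → Fin k,
        (∀ g : G, (fun h : F => x (g * (h : G))) ∈ P) →
        (∀ g : G, (fun h : F => y (g * (h : G))) ∈ P) →
        ∀ W : Finset G, ∃ C : Finset G, ∀ g : G, g ∉ C →
          ∃ z : G → Fin k, (∀ g' : G, (fun h : F => z (g' * (h : G))) ∈ P) ∧
            (∀ h ∈ W, z h = x h) ∧ (∀ h ∈ W, z (g⁻¹ * h) = y h)) := by
  intro M G hG
  have hG' : G = Subgroup.closure {tP, sP} := hG
  obtain ⟨H, H', h0, hne⟩ := niceAB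
  obtain ⟨V1, hV1, hV2⟩ := exists_tests M
  let S1 : Sft V := tet (setOf' listA) (setOf' listB)
  let S2 : Sft (Fin (2 * V1.card + 1)) := col V1 (2 * V1.card + 1)
  have hn1 : S1.X.Nonempty := by
    obtain ⟨z, hz⟩ := exists_isX H.two H.symA H.symB hne H.neB
    exact ⟨fun p => z p.1 p.2, (tet_iff _ _ _).mpr hz⟩
  obtain ⟨k, F, P, a1, a2, a3⟩ := to_group G hG' (S1.prod S2)
    (fun q => q ≠ (0, 0) ∧ |q.1| ≤ M)
    (Sft.prod_nonempty hn1 (col_nonempty V1 hV1))
    (Sft.prod_mixing (tet_mixing H H') (col_mixing V1 hV1)) (by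
      rintro z hz q hq ⟨hne, hM⟩
      rw [Sft.mem_prod] at hz
      by_cases h : q.1 = 0
      · -- torsion
        have hz1 := (tet_iff _ _ _).mp hz.1
        have h2 : q.2 = 0 := by
          apply no_torsion hc5 H.two H.cl h0 hz1 q.2
          intro n f
          have := hq (n, f)
          have e : lm q (n, f) = (n, f + q.2) := by
            unfold lm
            rw [h, sh_zero', zero_add, add_comm]
          rw [e] at this
          show (z (n, f + q.2)).1 = (z (n, f)).1
          rw [this]
        exact hne (Prod.ext h h2)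
      · obtain ⟨p, v, hv, e⟩ := hV2 q h hM
        have h1 := (col_iff _ _ _).mp hz.2 p v hv
        apply h1
        show (z (lm p v)).2 = (z p).2
        rw [← e, hq p])
  refine ⟨k, F, P, a1, fun x hx g hg => ?_, a3⟩
  have h1 := a2 x hx g hg
  by_contra hcon
  rw [not_or] at hcon
  apply h1
  refine ⟨fun h => hcon.1 ?_, by omega⟩
  apply Subtype.ext
  apply Equiv.ext
  intro p
  rw [apply_eq G hG' g p, h, lm_zero]
  rfl

end Pool.Agent.Results.MP_5b81c9_an.MixingNearlyFree
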